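import Pool.Agent.Helper75.PX.Stmts5

set_option autoImplicit false

universe u

open Module

namespace Pool.Agent.Helper75.PX

/-- scaling, characteristic three -/
theorem st_SC3a : ST_SC3a.{u} := by
  intro K A _ _ _ x j a c g hg h
  refine ⟨h.hx, ?_, ?_, mul_ne_zero h.c0 (pow_ne_zero 3 hg)⟩
  · rw [smul_mul_assoc, h.hjx, mul_smul_comm]
  · have e : (g • j) * (g • j) * (g • j) = (g ^ 3) • (j * j * j) := by
      simp only [smul_mul_assoc, mul_smul_comm, smul_smul]
      congr 1
      ring
    rw [e, h.hj, Algebra.smul_def, ← map_mul, mul_comm]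

end Pool.Agent.Helper75.PX
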