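import Pool.Agent.Helper75.PX.Stmts4
import Mathlib.FieldTheory.JacobsonNoether

set_option autoImplicit false

universe u

open Module

namespace Pool.Agent.Helper75.PX

/-- no division algebras over a separably closed field -/
theorem st_SEPC : ST_SEPC.{u} := by
  intro K D _ _ _ _ _ _
  have : Algebra.IsAlgebraic K D := Algebra.IsAlgebraic.of_finite K D
  have htop : (⊥ : Subalgebra K D) = ⊤ := by
    by_contra hne
    obtain ⟨x, hx, hs⟩ := JacobsonNoether.exists_separable_and_not_isCentral' (L := K) (D := D) hne
    have hint : IsIntegral K x := Algebra.IsIntegral.isIntegral x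
    have hirr : Irreducible (minpoly K x) := minpoly.irreducible hint
    have hdeg : (minpoly K x).degree = 1 :=
      IsSepClosed.degree_eq_one_of_irreducible K hirr hs
    obtain ⟨y, hy⟩ := minpoly.mem_range_of_degree_eq_one K x hdeg
    exact hx (Algebra.mem_bot.2 ⟨y, hy⟩)
  rw [← Subalgebra.bot_eq_top_iff_finrank_eq_one]
  exact htop

end Pool.Agent.Helper75.PX
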